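import Pool.Agent.Q66.RX.Stm

/-!
Lemma OPA of project RX of helper66: a group with an open subgroup whose compact sets of
characters are equicontinuous has the same property.
-/

set_option autoImplicit false

namespace Pool.Agent.Q259.RX

open Pool.Agent.Q66.RX Topology Filter Set

theorem t_OPA : S_OPA := by
  intro G _ _ _ H hH hR L hL
  let r : H →ₜ* G :=
    { toMonoidHom := H.subtype, continuous_toFun := continuous_subtype_val }
  have hc : Continuous (PontryaginDual.map r) := (PontryaginDual.map r).continuous_toFun
  obtain ⟨W, hW, h⟩ := hR (PontryaginDual.map r '' L) (hL.image hc)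
  refine ⟨Subtype.val '' W, ?_, ?_⟩
  · have h1 := hH.isOpenEmbedding_subtypeVal.image_mem_nhds (x := (1 : H)) (s := W)
    exact h1.2 hW
  · rintro χ hχ g ⟨w, hw, rfl⟩
    exact h _ ⟨χ, hχ, rfl⟩ w hw

end Pool.Agent.Q259.RX
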